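import Pool.Agent.TH122.FinF

/-!
# MP_ffcd14_ag: the conjecture of Hodge type and integral isometries

The conjecture of Hodge type for cycles modulo numerical equivalence asks that the forms
`(-1) ^ n deg (α · β · L ^ (d - 2 n))` be positive definite on the primitive cycles of codimension
`n` modulo numerical equivalence. For a class of polarized varieties closed under products, whose
members satisfy the Kunneth standard conjecture and the (numerical) Lefschetz standard conjecture,
we prove that the conjecture holds for all members if and only if for every member `X` the
numerical isometries of `X` with integral coefficients form a finite set modulo numerical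
equivalence, and if and only if all of them have finite order modulo numerical equivalence.
-/

open CategoryTheory AlgebraicGeometry

universe u v

namespace Pool.Agent.Results.MP_ffcd14_ag.IntegralIsometries

open Pool.Agent.H914 Pool.Agent.H914.VarClass Pool.Agent.H914.VarClass.Obj
  Pool.Agent.H281R3.HT Pool.Agent.TH122.Num

/-- **The numerical conjecture of Hodge type is equivalent to the finiteness of the groups of
integral isometries modulo numerical equivalence, and to their being torsion.** -/
theorem result {k : Type u} [Field k] {𝒱 : VarClass k} {ops : CycleOps 𝒱}
    (W : WeilCohomology.{u, v} ops) (hops : IntegralOps ops) (𝒬 : Polarized 𝒱 → Prop)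
    (h : IsNumProductClass W 𝒬) :
    [∀ P, 𝒬 P → HodgeTypeNum ops P.X P.D,
      ∀ P, 𝒬 P → FinitelyManyIsometries ops P.X P.D,
      ∀ P, 𝒬 P → IsometriesOfFiniteOrder ops P.X P.D].TFAE :=
  tfae_integral hops h

end Pool.Agent.Results.MP_ffcd14_ag.IntegralIsometries
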