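import Pool.Agent.TH125.Gal.Twr

/-!
# The standard conjecture of Hodge type for products with powers of varieties with a nodal reduction

Let `W` be a Weil cohomology theory on a class of smooth proper varieties over a field `k` of any
characteristic, and `G` a class of varieties, closed under products, with an action of a group `Γ`
with the formal properties of a Galois action (the example: varieties over a subfield `F` of the
algebraically closed field `k`, for instance a field of functions in positive characteristic, and
the Galois group of `F`).

Let `X_i` and `Z` be polarized varieties in `G` which satisfy the standard conjectures of Lefschetz
and of Hodge type; let the transcendental cohomology of `X_i` (the orthogonal complement of all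
algebraic classes) be concentrated in the middle degree and irreducible under all subgroups of
finite index of `Γ`. For every `i` let there be one element `g_i` of `Γ` which acts on the
transcendental cohomology of `X_i` by a Picard-Lefschetz formula and trivially on the cohomology of
`Z`, on the cohomology of the `X_j` with `j ≠ i` and on the Tate twists. (Example: an element of the
inertia group at a place `v_i` of `F` at which `X_i` has an ordinary double point and `Z` and the
other `X_j` have good reduction.)

Then the standard conjecture of Hodge type and the conjecture D hold for the product of `Z` with
arbitrary powers of the `X_i` (for `X_i` of even dimension: with less factors than the dimension of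
the transcendental cohomology), with the sum of the pull-backs of the polarizations. In particular
they hold for products of powers of surfaces `X_i` as above.

The proof: every algebraic class on the product is semi-invariant under a subgroup of finite index;
by the structure theorem for such classes (the Lie algebra of the operators which kill all the
equivariant multilinear maps contains the logarithm of `g_i`, or the operators of rank two given by
two conjugates of `g_i`, so it is the full symplectic or orthogonal Lie algebra; first fundamental
theorem) the algebraic classes are combinations of products of algebraic classes of the power of
`X_i` and arbitrary classes of the other factor, and those of the powers of `X_i` are generated by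
algebraic classes of the factors and the transcendental parts of the diagonals of pairs of factors,
which are orthogonal to the other classes of the square and have the square `dim T (X_i) > 0`.
-/

universe u v w

namespace Pool.Agent.Results.MP_ffcd14_ag.NodalProducts

open Pool.Agent.H914 Pool.Agent.H281R3.HT Pool.Agent.TH125.Gal

/-- **The standard conjecture of Hodge type for products with powers of varieties with a nodal
reduction.** -/
theorem result {k : Type u} [Field k] {𝒱 : VarClass k} {ops : CycleOps 𝒱}
    (W : WeilCohomology.{u, v} ops) {Γ : Type w} [Group Γ] (χ : Γ →* W.Kˣ) (G : Set (GVar W Γ))
    {ι : Type} (X : ι → GVar W Γ) (D : ∀ i, (X i).X.Cycles) (Z : GVar W Γ)
    (h : NodalSystem χ G X D Z) (E : Z.X.Cycles) (hE : IsPolarization W Z.X E)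
    (L : List (ι × ℕ)) (hL : Admissible X L) :
    HodgeType W (nodalTower X D Z E L).X (nodalTower X D Z E L).D ∧
      HomEqNum W (nodalTower X D Z E L).X :=
  hodge_nodal h hE L hL

end Pool.Agent.Results.MP_ffcd14_ag.NodalProducts
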