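import Pool.Agent.TH122.NumF

/-!
# MP_ffcd14_ag: the conjecture of Hodge type, isotropic cycles and the Riemann hypothesis

The conjecture of Hodge type for cycles modulo numerical equivalence asks that the forms
`(-1) ^ n deg (α · β · L ^ (d - 2 n))` be positive definite on the primitive cycles of codimension
`n` modulo numerical equivalence. For a class of polarized varieties closed under products, whose
members satisfy the Kunneth standard conjecture and the (numerical) Lefschetz standard conjecture,
we prove that the conjecture holds for all members if and only if no member `X`, of any even
dimension `2 m`, carries a numerically nontrivial cycle of codimension `m` which is numerically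
primitive and has self-intersection number zero, and if and only if the Riemann hypothesis holds
for all numerical isometries of all members.
-/

open CategoryTheory AlgebraicGeometry

universe u v

namespace Pool.Agent.Results.MP_ffcd14_ag.NumericalIsometries

open Pool.Agent.H914 Pool.Agent.H914.VarClass Pool.Agent.H914.VarClass.Obj
  Pool.Agent.H281R3.HT Pool.Agent.TH122.Num

/-- **The numerical conjecture of Hodge type, the absence of numerically isotropic primitive cycles
of the middle codimension, and the Riemann hypothesis for numerical isometries are equivalent.** -/
theorem result {k : Type u} [Field k] {𝒱 : VarClass k} {ops : CycleOps 𝒱}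
    (W : WeilCohomology.{u, v} ops) (𝒬 : Polarized 𝒱 → Prop) (h : IsNumProductClass W 𝒬) :
    [∀ P, 𝒬 P → HodgeTypeNum ops P.X P.D,
      ∀ P, 𝒬 P → NumAnisotropic ops P.X P.D,
      ∀ P, 𝒬 P → RiemannHypothesisNum ops P.X P.D].TFAE :=
  tfae h

end Pool.Agent.Results.MP_ffcd14_ag.NumericalIsometries
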